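import Mathlib
import Pool.Agent.Ady.Closed37

/-!
# Adyan's words as iterated identities: the complete answer

* E-type: there is `n₀` such that for every odd `n ≥ n₀` the family `w_{n,r}` is independent as
  E-type iterated identities; moreover for every exponent `r ≥ 1` (prime or not) there is a group
  satisfying each `w_{n,s}`, `s ≥ 1`, `s ≠ r`, but not `w_{n,r}` as E-type iterated identity
  (the group is a limit of quotients of a free product, `Pool/Agent/Ady/PAPER.md`).
* S-type: for every `n`, every group satisfies every `w_{n,r}` as an S-type iterated identity: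
  for `g`, `h` in a group the four values of `w = w_{n,r}` at pairs from `{g, h}` are
  `1`, `c = w(g, h)` and `w(h, g) = c⁻¹`; these commute, so all values of the second S-type iterate
  are `1`. Hence the family is never independent as S-type iterated identities.
-/

universe u

namespace Pool.Agent.Results.MP_9e15c1_al.AdyanIterated

/-- The value of the word `w`, an element of the free group on `x₁`, `x₂`, at `(g, h)`. -/
def val {G : Type u} [Group G] (w : FreeGroup (Fin 2)) (g h : G) : G :=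
  FreeGroup.lift ![g, h] w

/-- Adyan's word `w_{n,r} = (x₁^{rn} x₂^{rn} x₁^{-rn} x₂^{-rn})^n`. -/
def adyan (n r : ℕ) : FreeGroup (Fin 2) :=
  ((FreeGroup.of 0) ^ (r * n) * (FreeGroup.of 1) ^ (r * n) * ((FreeGroup.of 0) ^ (r * n))⁻¹ *
    ((FreeGroup.of 1) ^ (r * n))⁻¹) ^ n

/-- The iterates of Engel type: `eIter w k g h` is `w_{∘k}(g, h)` for `k ≥ 1`. -/
def eIter {G : Type u} [Group G] (w : FreeGroup (Fin 2)) : ℕ → G → G → G
  | 0, g, _ => g
  | k + 1, g, h => val w (eIter w k g h) h

/-- The iterates of solvability type: `sIter w k y` is `w_{⋆k}(y 0, …, y (2 ^ k - 1))` for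
`k ≥ 1`. -/
def sIter {G : Type u} [Group G] (w : FreeGroup (Fin 2)) : ℕ → (ℕ → G) → G
  | 0, y => y 0
  | k + 1, y => val w (sIter w k y) (sIter w k fun i => y (2 ^ k + i))

/-- `G` satisfies `w` as an E-type iterated identity. -/
def SatE (w : FreeGroup (Fin 2)) (G : Type u) [Group G] : Prop :=
  ∀ g h : G, ∃ N : ℕ, 1 ≤ N ∧ eIter w N g h = 1

/-- `G` satisfies `w` as an S-type iterated identity. -/
def SatS (w : FreeGroup (Fin 2)) (G : Type u) [Group G] : Prop :=
  ∀ g h : G, ∃ N : ℕ, 1 ≤ N ∧ ∀ y : ℕ → G, (∀ i, y i = g ∨ y i = h) → sIter w N y = 1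

/-- The family `w_{n,r}`, `r` an odd prime, is independent as E-type iterated identities. -/
def IndependentE (n : ℕ) : Prop :=
  ∀ r : ℕ, r.Prime → Odd r → ∃ (G : Type u) (_ : Group G),
    (∀ s : ℕ, s.Prime → Odd s → s ≠ r → SatE (adyan n s) G) ∧ ¬ SatE (adyan n r) G

/-- The family `w_{n,r}`, `r` an odd prime, is independent as S-type iterated identities. -/
def IndependentS (n : ℕ) : Prop :=
  ∀ r : ℕ, r.Prime → Odd r → ∃ (G : Type u) (_ : Group G),
    (∀ s : ℕ, s.Prime → Odd s → s ≠ r → SatS (adyan n s) G) ∧ ¬ SatS (adyan n r) G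

lemma val_adyan {G : Type u} [Group G] (n r : ℕ) (g h : G) :
    val (adyan n r) g h = (g ^ (r * n) * h ^ (r * n) * (g ^ (r * n))⁻¹ * (h ^ (r * n))⁻¹) ^ n := by
  simp [val, adyan]

lemma val_eq_one {G : Type u} [Group G] (n r : ℕ) {a b : G} (h : Commute a b) :
    val (adyan n r) a b = 1 := by
  rw [val_adyan]
  have h' : Commute (a ^ (r * n)) (b ^ (r * n)) := h.pow_pow _ _
  have : a ^ (r * n) * b ^ (r * n) * (a ^ (r * n))⁻¹ * (b ^ (r * n))⁻¹ = 1 := by
    rw [h'.eq]
    group
  rw [this, one_pow]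

lemma val_inv {G : Type u} [Group G] (n r : ℕ) (g h : G) :
    val (adyan n r) h g = (val (adyan n r) g h)⁻¹ := by
  rw [val_adyan, val_adyan]
  generalize g ^ (r * n) = a
  generalize h ^ (r * n) = b
  have : b * a * b⁻¹ * a⁻¹ = (a * b * a⁻¹ * b⁻¹)⁻¹ := by group
  rw [this, inv_pow]

/-- Every group satisfies Adyan's words as S-type iterated identities, with `N = 2`. -/
lemma satS (n r : ℕ) (G : Type u) [Group G] : SatS (adyan n r) G := by
  intro g h
  refine ⟨2, by norm_num, fun y hy => ?_⟩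
  set c := val (adyan n r) g h with hc
  have key : ∀ i j, val (adyan n r) (y i) (y j) = 1 ∨ val (adyan n r) (y i) (y j) = c ∨
      val (adyan n r) (y i) (y j) = c⁻¹ := by
    intro i j
    rcases hy i with h1 | h1 <;> rcases hy j with h2 | h2 <;> rw [h1, h2]
    · exact Or.inl (val_eq_one n r (Commute.refl g))
    · exact Or.inr (Or.inl rfl)
    · exact Or.inr (Or.inr (val_inv n r g h))
    · exact Or.inl (val_eq_one n r (Commute.refl h))
  have hcomm : ∀ a b : G, (a = 1 ∨ a = c ∨ a = c⁻¹) → (b = 1 ∨ b = c ∨ b = c⁻¹) →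
      Commute a b := by
    rintro a b (rfl | rfl | rfl) (rfl | rfl | rfl) <;>
      first
        | exact Commute.one_left _
        | exact Commute.one_right _
        | exact Commute.refl _
        | exact (Commute.refl _).inv_left
        | exact (Commute.refl _).inv_right
  exact val_eq_one n r (hcomm _ _ (key _ _) (key _ _))

theorem eIter_eq {G : Type u} [Group G] (w : FreeGroup (Fin 2)) (k : ℕ) (g h : G) :
    Pool.Agent.Ady.eIter w k g h = eIter w k g h := by
  induction k with
  | zero => rfl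
  | succ k ih =>
    show Pool.Agent.Ady.val w (Pool.Agent.Ady.eIter w k g h) h = val w (eIter w k g h) h
    rw [ih]
    rfl

theorem satE_of {G : Type u} [Group G] {n s : ℕ}
    (h : Pool.Agent.Ady.SatE (Pool.Agent.Ady.adyan n s) G) : SatE (adyan n s) G := by
  intro g h'
  obtain ⟨N, h1, h2⟩ := h g h'
  refine ⟨N, h1, ?_⟩
  rw [← eIter_eq]
  exact h2

theorem satE_to {G : Type u} [Group G] {n s : ℕ}
    (h : SatE (adyan n s) G) : Pool.Agent.Ady.SatE (Pool.Agent.Ady.adyan n s) G := by
  intro g h'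
  obtain ⟨N, h1, h2⟩ := h g h'
  refine ⟨N, h1, ?_⟩
  rw [← eIter_eq] at h2
  exact h2

/-- **The answer to Q1.** E-type: for all odd `n ≥ n₀` the family is independent, and the
independence holds with all exponents `r ≥ 1`. S-type: every group satisfies every word of the
family, so the family is never independent. In particular the conjunction asked for in Q1 fails,
because of its S-type half only. -/
theorem result :
    (∃ n₀ : ℕ, ∀ n : ℕ, n₀ ≤ n → Odd n → IndependentE.{u} n ∧
      ∀ r : ℕ, 1 ≤ r → ∃ (G : Type u) (_ : Group G),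
        (∀ s : ℕ, 1 ≤ s → s ≠ r → SatE (adyan n s) G) ∧ ¬ SatE (adyan n r) G) ∧
    (∀ (n r : ℕ) (G : Type u) [Group G], SatS (adyan n r) G) ∧
    (∀ n : ℕ, ¬ IndependentS.{u} n) ∧
    ¬ ∃ n₀ : ℕ, ∀ n : ℕ, n₀ ≤ n → Odd n → IndependentE.{u} n ∧ IndependentS.{u} n := by
  have h1 : ∀ n : ℕ, ¬ IndependentS.{u} n := by
    intro n h
    obtain ⟨G, inst, _, h2⟩ := h 3 Nat.prime_three (by decide)
    exact h2 (satS n 3 G)
  refine ⟨?_, fun n r G _ => satS n r G, h1, ?_⟩
  · obtain ⟨n₀, h⟩ := Pool.Agent.Ady.final_of.{u} Pool.Agent.Ady.Closed37.cLIM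
    refine ⟨n₀, fun n hn ho => ?_⟩
    have h2 : ∀ r : ℕ, 1 ≤ r → ∃ (G : Type u) (_ : Group G),
        (∀ s : ℕ, 1 ≤ s → s ≠ r → SatE (adyan n s) G) ∧ ¬ SatE (adyan n r) G := by
      intro r hr
      obtain ⟨G, iG, h3, h4⟩ := h n hn ho r hr
      exact ⟨G, iG, fun s hs hsr => satE_of (h3 s hs hsr), fun h5 => h4 (satE_to h5)⟩
    refine ⟨fun r hr _ => ?_, h2⟩
    obtain ⟨G, iG, h3, h4⟩ := h2 r hr.one_le
    exact ⟨G, iG, fun s hs _ hsr => h3 s hs.one_le hsr, h4⟩
  · rintro ⟨n₀, h⟩
    exact h1 _ (h (2 * n₀ + 1) (by omega) ⟨n₀, rfl⟩).2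

end Pool.Agent.Results.MP_9e15c1_al.AdyanIterated
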